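import Pool.Agent.SOR.Stmts2

/-!
# Squad SOR, row IND: sums over the orbits of two commuting permutations (author helper17)
-/

open scoped BigOperators

noncomputable section

namespace Pool.Agent.SOR.H17

/-- the permutations under which a function is invariant -/
def invSub {Y : Type} (f : Y → ℚ) : Subgroup (Equiv.Perm Y) where
  carrier := {π | ∀ y, f (π y) = f y}
  one_mem' := fun _ => rfl
  mul_mem' := by
    intro a b ha hb y
    change f (a (b y)) = f y
    rw [ha, hb]
  inv_mem' := by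
    intro a ha y
    have h := ha (a⁻¹ y)
    have e : a (a⁻¹ y) = y := a.apply_symm_apply y
    rw [e] at h
    exact h.symm

theorem inv_zpow {Y : Type} {f : Y → ℚ} {s t : Equiv.Perm Y} (hs : ∀ y, f (s y) = f y)
    (ht : ∀ y, f (t y) = f y) (a b : ℤ) (y : Y) : f ((s ^ a * t ^ b) y) = f y := by
  have h1 : s ∈ invSub f := hs
  have h2 : t ∈ invSub f := ht
  have h3 : s ^ a * t ^ b ∈ invSub f := mul_mem (zpow_mem h1 a) (zpow_mem h2 b)
  exact h3 y

theorem ea (j : ℤ) (n : ℕ) :
    Multiplicative.toAdd ((((1 : Multiplicative ℤ), Multiplicative.ofAdd (1 : ℤ)) ^ j)⁻¹ *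
      (Multiplicative.ofAdd (1 : ℤ), (1 : Multiplicative ℤ)) ^ n).1 = (n : ℤ) := by
  simp

theorem eb (j : ℤ) (n : ℕ) :
    Multiplicative.toAdd ((((1 : Multiplicative ℤ), Multiplicative.ofAdd (1 : ℤ)) ^ j)⁻¹ *
      (Multiplicative.ofAdd (1 : ℤ), (1 : Multiplicative ℤ)) ^ n).2 = -j := by
  simp

theorem ec (n : ℕ) :
    Multiplicative.toAdd (((1 : Multiplicative ℤ), Multiplicative.ofAdd (1 : ℤ)) ^ n).1 = 0 := by
  simp

theorem ed (n : ℕ) :
    Multiplicative.toAdd (((1 : Multiplicative ℤ), Multiplicative.ofAdd (1 : ℤ)) ^ n).2 =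
      (n : ℤ) := by
  simp

/-- IND -/
theorem ind : IndStmt := by
  intro Y _ R s t hst ε ζ hεs hεt hζs hζt hk hl
  classical
  let A := Multiplicative ℤ × Multiplicative ℤ
  let φ : A →* Equiv.Perm Y := MonoidHom.noncommCoprod (zpowersHom _ s) (zpowersHom _ t) (by
    intro a b
    rw [zpowersHom_apply, zpowersHom_apply]
    exact Commute.zpow_zpow hst _ _)
  have hφ : ∀ g : A, φ g = s ^ (Multiplicative.toAdd g.1) * t ^ (Multiplicative.toAdd g.2) := by
    intro g
    rfl
  letI : MulAction A Y := MulAction.compHom Y φ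
  have hsm : ∀ (g : A) (y : Y),
      g • y = (s ^ (Multiplicative.toAdd g.1) * t ^ (Multiplicative.toAdd g.2)) y := by
    intro g y
    rfl
  have hε : ∀ (g : A) (y : Y), ε (g • y) = ε y := fun g y => by
    rw [hsm]
    exact inv_zpow hεs hεt _ _ y
  have hζ : ∀ (g : A) (y : Y), ζ (g • y) = ζ y := fun g y => by
    rw [hsm]
    exact inv_zpow hζs hζt _ _ y
  -- the size of an orbit
  have key : ∀ z : Y, ((MulAction.orbit A z).ncard : ℚ) * (ε z * ζ z) ∈ R := by
    intro z
    let L : Subgroup A := MulAction.stabilizer A z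
    let τ : A := (1, Multiplicative.ofAdd 1)
    let T : Subgroup A := Subgroup.zpowers τ
    have h1 : L.relIndex T * (T ⊔ L).index = (MulAction.orbit A z).ncard := by
      rw [← MulAction.index_stabilizer]
      rw [← Subgroup.relIndex_sup_right T L]
      exact Subgroup.relIndex_mul_index le_sup_right
    -- the first factor
    have h2 : ((T ⊔ L).index : ℚ) * ε z ∈ R := by
      let σ : A := (Multiplicative.ofAdd 1, 1)
      have h3 : σ ^ (T ⊔ L).index ∈ T ⊔ L := Subgroup.pow_index_mem _ σ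
      obtain ⟨u, hu, v, hv, huv⟩ := Subgroup.mem_sup.1 h3
      obtain ⟨j, hj⟩ := Subgroup.mem_zpowers_iff.1 hu
      have h4 : u⁻¹ * σ ^ (T ⊔ L).index = v := by
        rw [← huv, inv_mul_cancel_left]
      have h5 : (u⁻¹ * σ ^ (T ⊔ L).index) • z = z := by
        rw [h4]
        exact hv
      rw [← hj, hsm] at h5
      have e1 : Multiplicative.toAdd ((τ ^ j)⁻¹ * σ ^ (T ⊔ L).index).1 =
          ((T ⊔ L).index : ℤ) := ea j _
      have e2 : Multiplicative.toAdd ((τ ^ j)⁻¹ * σ ^ (T ⊔ L).index).2 = -j := eb j _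
      rw [e1, e2] at h5
      have h6 := hk z _ _ h5
      rw [Int.cast_natCast] at h6
      exact h6
    have h3 : ((L.relIndex T : ℕ) : ℚ) * ζ z ∈ R := by
      have h4 : (⟨τ, Subgroup.mem_zpowers τ⟩ : T) ^ (L.subgroupOf T).index ∈ L.subgroupOf T :=
        Subgroup.pow_index_mem _ _
      rw [Subgroup.mem_subgroupOf] at h4
      have h5 : (τ ^ (L.relIndex T)) • z = z := h4
      rw [hsm] at h5
      have e1 : Multiplicative.toAdd (τ ^ (L.relIndex T)).1 = 0 := ec _
      have e2 : Multiplicative.toAdd (τ ^ (L.relIndex T)).2 = ((L.relIndex T : ℕ) : ℤ) := ed _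
      rw [e1, e2, zpow_zero, one_mul] at h5
      have h6 := hl z _ h5
      rw [Int.cast_natCast] at h6
      exact h6
    have h4 := R.mul_mem h2 h3
    rw [← h1]
    push_cast
    have e : ((L.relIndex T : ℕ) : ℚ) * ((T ⊔ L).index : ℚ) * (ε z * ζ z) =
        ((T ⊔ L).index : ℚ) * ε z * (((L.relIndex T : ℕ) : ℚ) * ζ z) := by ring
    rw [e]
    exact h4
  -- the sum over the orbits
  rw [← Finset.sum_fiberwise (s := Finset.univ) (g := fun y : Y =>
    (Quotient.mk (MulAction.orbitRel A Y) y)) (f := fun y => ε y * ζ y)]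
  apply Subring.sum_mem
  intro q _
  obtain ⟨z, rfl⟩ := Quotient.exists_rep q
  have h1 : ∀ y, (Quotient.mk (MulAction.orbitRel A Y) y) = Quotient.mk (MulAction.orbitRel A Y) z ↔
      y ∈ MulAction.orbit A z := by
    intro y
    rw [Quotient.eq]
    exact MulAction.orbitRel_apply
  have h2 : ∑ y ∈ Finset.univ.filter (fun y : Y => Quotient.mk (MulAction.orbitRel A Y) y =
      Quotient.mk (MulAction.orbitRel A Y) z), ε y * ζ y =
      ∑ y ∈ Finset.univ.filter (fun y : Y => Quotient.mk (MulAction.orbitRel A Y) y =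
      Quotient.mk (MulAction.orbitRel A Y) z), ε z * ζ z := by
    apply Finset.sum_congr rfl
    intro y hy
    obtain ⟨g, rfl⟩ := (h1 y).1 (Finset.mem_filter.1 hy).2
    change ε (g • z) * ζ (g • z) = _
    rw [hε, hζ]
  have h3 : (Finset.univ.filter (fun y : Y => Quotient.mk (MulAction.orbitRel A Y) y =
      Quotient.mk (MulAction.orbitRel A Y) z)).card = (MulAction.orbit A z).ncard := by
    rw [← Set.ncard_coe_finset]
    congr 1
    ext y
    rw [Finset.mem_coe, Finset.mem_filter]
    rw [h1 y]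
    simp
  have h4 := key z
  rw [← h3] at h4
  rw [h2, Finset.sum_const, nsmul_eq_mul]
  exact h4

end Pool.Agent.SOR.H17
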