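import Pool.Agent.SOR.Stmts1

/-!
# Squad SOR, row NDJ: the pairing in the new gauge (author helper17)
-/

open scoped BigOperators

noncomputable section

namespace Pool.Agent.SOR.H17

theorem pa_inv_A : pa⁻¹ lA = lA := by
  change fai lA = lA
  exact fai_A

theorem pa_inv_B : pa⁻¹ lB = lA⁻¹ * lB := by
  change fai lB = lA⁻¹ * lB
  exact fai_B

theorem pa_inv_A' : pa⁻¹ lA'⁻¹ = lA'⁻¹ := by
  change fai lA'⁻¹ = lA'⁻¹
  simp only [lA', map_inv, map_mul, fai_A, fai_B]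
  group

theorem pa_AB : pa (lA⁻¹ * lB) = lB := by
  change fa (lA⁻¹ * lB) = lB
  simp only [map_inv, map_mul, fa_A, fa_B]
  group

section

variable {Y : Type} {i : Fr →* Equiv.Perm Y}

theorem cx_dl (f : Y → ℚ) : Cx i (dl i f) := by
  intro g h y
  unfold dl
  rw [map_mul, Equiv.Perm.mul_apply]
  ring

theorem cx_add {u v : Fr → Y → ℚ} (hu : Cx i u) (hv : Cx i v) :
    Cx i (fun w y => u w y + v w y) := by
  intro g h y
  change u (g * h) y + v (g * h) y = (u g (i h y) + v g (i h y)) + (u h y + v h y)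
  rw [hu, hv]
  ring

theorem cx_sub {u v : Fr → Y → ℚ} (hu : Cx i u) (hv : Cx i v) :
    Cx i (fun w y => u w y - v w y) := by
  intro g h y
  change u (g * h) y - v (g * h) y = (u g (i h y) - v g (i h y)) + (u h y - v h y)
  rw [hu, hv]
  ring

theorem act_inv {φ : MulAut Fr} {π : Equiv.Perm Y} (act : ∀ w y, π (i w y) = i (φ w) (π y))
    (w : Fr) (y : Y) : i (φ⁻¹ w) (π⁻¹ y) = π⁻¹ (i w y) := by
  have h := act (φ⁻¹ w) (π⁻¹ y)
  have e1 : φ (φ⁻¹ w) = w := φ.apply_symm_apply w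
  have e2 : π (π⁻¹ y) = y := π.apply_symm_apply y
  rw [e1, e2] at h
  have h2 := congrArg (fun z => π⁻¹ z) h
  change π⁻¹ (π (i (φ⁻¹ w) (π⁻¹ y))) = π⁻¹ (i w y) at h2
  have e3 : π⁻¹ (π (i (φ⁻¹ w) (π⁻¹ y))) = i (φ⁻¹ w) (π⁻¹ y) := π.symm_apply_apply _
  rw [e3] at h2
  exact h2

theorem cx_tw {φ : MulAut Fr} {π : Equiv.Perm Y} (act : ∀ w y, π (i w y) = i (φ w) (π y))
    {u : Fr → Y → ℚ} (hu : Cx i u) : Cx i (tw φ π u) := by
  intro g h y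
  unfold tw
  rw [map_mul, hu, act_inv act]

theorem cx_inv {u : Fr → Y → ℚ} (hu : Cx i u) (g : Fr) (y : Y) :
    u g⁻¹ y = - u g (i g⁻¹ y) := by
  have h1 : u 1 y = 0 := by
    have h := hu 1 1 y
    rw [mul_one, map_one, Equiv.Perm.one_apply] at h
    linarith
  have h2 := hu g g⁻¹ y
  rw [mul_inv_cancel, h1] at h2
  linarith

end

/-- NDJ -/
theorem ndj (prg : PrgStmt) (_ivf : IvfStmt) : NdjStmt := by
  intro Y _ R i x₁ x₂ h₁ h₂ hB π f₁ f₂ μ₁ μ₂ g₂ hN Ψ hΨ hΨx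
  set x1 : Fr → Y → ℚ := fun w y => x₁ w y + dl i f₁ w y with hx1
  set x2 : Fr → Y → ℚ := fun w y => x₂ w y + dl i f₂ w y with hx2
  have cx1 : Cx i x1 := cx_add hB.ex₁ (cx_dl f₁)
  have cx2 : Cx i x2 := cx_add hB.ex₂ (cx_dl f₂)
  set v : Fr → Y → ℚ := fun w y => (x₂ (pa⁻¹ w) (π⁻¹ y) + dl i f₂ (pa⁻¹ w) (π⁻¹ y)) -
    (x₂ w y + dl i f₂ w y) + dl i μ₂ w y with hv
  have hv' : ∀ w y, v w y = x2 (pa⁻¹ w) (π⁻¹ y) - x2 w y + dl i μ₂ w y := fun _ _ => rfl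
  have cu : Cx i (tw pa π x1) := cx_tw hN.act cx1
  have cv : Cx i v := cx_add (cx_sub (cx_tw hN.act cx2) cx2) (cx_dl μ₂)
  have hπ : ∀ y, π (π⁻¹ y) = y := fun y => π.apply_symm_apply y
  have hxi : ∀ y, x2 lA (π⁻¹ y) = x2 lA y := by
    intro y
    have h := hN.xi (π⁻¹ y)
    rw [hπ] at h
    exact h.symm
  have hvA : ∀ y, v lA y = 0 := by
    intro y
    rw [hv', pa_inv_A, hxi]
    unfold dl
    rw [hN.b₂]
    ring
  have hI := prg Y i (tw pa π x1) v cu cv hvA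
  change Iv i (tw pa π x1) v - _ ∈ R
  rw [hI]
  -- the second factor
  have hu : ∀ y, tw pa π x1 lA'⁻¹ y - Ψ y ∈ R := by
    intro y
    have h1 := hN.m₁ lA'⁻¹ y
    have h2 : dl i μ₁ lA'⁻¹ y = 0 := by
      unfold dl
      have h3 := hN.c₁ (i lA'⁻¹ y)
      have h4 : i lA' (i lA'⁻¹ y) = y := by
        rw [← Equiv.Perm.mul_apply, ← map_mul, mul_inv_cancel, map_one, Equiv.Perm.one_apply]
      rw [h4] at h3
      rw [h3]
      ring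
    rw [h2] at h1
    have h5 := R.sub_mem h1 (hΨx y)
    have h6 : tw pa π x1 lA'⁻¹ y = x₁ (pa⁻¹ lA'⁻¹) (π⁻¹ y) + dl i f₁ (pa⁻¹ lA'⁻¹) (π⁻¹ y) := rfl
    rw [h6]
    have e : x₁ (pa⁻¹ lA'⁻¹) (π⁻¹ y) + dl i f₁ (pa⁻¹ lA'⁻¹) (π⁻¹ y) - Ψ y =
        (x₁ (pa⁻¹ lA'⁻¹) (π⁻¹ y) + dl i f₁ (pa⁻¹ lA'⁻¹) (π⁻¹ y)) -
          (x₁ lA'⁻¹ y + dl i f₁ lA'⁻¹ y) + 0 - (Ψ y - (x₁ lA'⁻¹ y + dl i f₁ lA'⁻¹ y)) := by
      ring
    rw [e]
    exact h5
  have hvB : ∀ y, v lB y ∈ R := fun y => hN.m₂ lB y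
  -- the value at `B`
  have hval : ∀ y, v lB y = (μ₂ (i lB y) - μ₂ y - x2 lA (i lB y)) +
      (x2 lB (π⁻¹ y) - x2 lB y) := by
    intro y
    rw [hv', pa_inv_B, cx2, cx_inv cx2]
    have h1 : i lA⁻¹ (i lB (π⁻¹ y)) = π⁻¹ (i lB y) := by
      have h2 := act_inv hN.act lB y
      rw [pa_inv_B, map_mul, Equiv.Perm.mul_apply] at h2
      exact h2
    rw [h1, hxi]
    unfold dl
    ring
  have hsum : ∑ y, v lB y * Ψ y = ∑ y, (μ₂ (i lB y) - μ₂ y - x2 lA (i lB y)) * Ψ y := by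
    have h1 : ∑ y, x2 lB (π⁻¹ y) * Ψ y = ∑ y, x2 lB y * Ψ y := by
      rw [← Equiv.sum_comp π (fun y => x2 lB (π⁻¹ y) * Ψ y)]
      apply Finset.sum_congr rfl
      intro y _
      have e : π⁻¹ (π y) = y := π.symm_apply_apply y
      rw [e, hΨ]
    have h2 : ∑ y, v lB y * Ψ y = ∑ y, ((μ₂ (i lB y) - μ₂ y - x2 lA (i lB y)) * Ψ y +
        (x2 lB (π⁻¹ y) * Ψ y - x2 lB y * Ψ y)) := by
      apply Finset.sum_congr rfl
      intro y _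
      rw [hval]
      ring
    rw [h2, Finset.sum_add_distrib, Finset.sum_sub_distrib, h1, sub_self, add_zero]
  have hfin : ∑ y, v lB y * tw pa π x1 lA'⁻¹ y - ∑ y, v lB y * Ψ y ∈ R := by
    rw [← Finset.sum_sub_distrib]
    apply Subring.sum_mem
    intro y _
    rw [← mul_sub]
    exact R.mul_mem (hvB y) (hu y)
  rw [hsum] at hfin
  exact hfin

end Pool.Agent.SOR.H17
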